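import Pool.Agent.FoxAsph.Main

/-!
# Asphericity from a cheapest transversal

Partial result on Whitehead's asphericity question for subcomplexes of contractible 2-complexes: a
finite combinatorial criterion for asphericity of a presentation complex. For labelled oriented trees
(the presentations `⟨x_v ∣ x_i x_k = x_k x_j⟩`, whose complexes are the standard subcomplexes of
contractible 2-complexes) and weight `1` on every generator it extends Howie's theorem on trees whose
left or right graph is a forest, which is the case where the only cheapest choice has cost zero.
-/

set_option autoImplicit false

namespace Pool.Agent.Results.MP_6de9fc_gt.CheapestTransversal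

open Pool.Agent.FoxAsph

/-- Let `⟨X ∣ rel i (i : ι)⟩` be a presentation with finitely many relators and `ξ` a weight of the
generators, in a linearly ordered abelian group, for which every relator has total weight `0`.
Let `τ` choose a place in every relator such that the chosen generators are pairwise distinct, and
suppose that

* `τ` is cheapest: its cost, the sum of the heights of the chosen places, is at most the cost of every
  choice `τ'` with the same set of chosen generators;
* every `τ'` with the same set of chosen generators and the same cost takes, at each relator, one of
  the two places chosen by `τ` and `τ₁`;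
* no closed chain of exchanges from `τ` to `τ₁` has trivial holonomy (so each cycle of exchanges has
  holonomy of infinite order).

Then the presentation is aspherical. For `τ₁ = τ` the third condition is void, and the first two say
that `τ` is strictly cheaper than every other choice with the same set of chosen generators. -/
theorem result {X ι Λ : Type} [Fintype ι] [AddCommGroup Λ] [LinearOrder Λ] [IsOrderedAddMonoid Λ]
    (rel : ι → Word X) (ξ : X → Λ) (hξ : ∀ i, wt ξ (rel i) = 0)
    (τ τ₁ : (i : ι) → Fin (rel i).length)
    (hinj : Function.Injective fun i => letter (rel i) (τ i))
    (hmin : ∀ τ' : (i : ι) → Fin (rel i).length,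
      (Set.range fun i => letter (rel i) (τ' i)) = (Set.range fun i => letter (rel i) (τ i)) →
      cost ξ rel τ ≤ cost ξ rel τ')
    (huniq : ∀ τ' : (i : ι) → Fin (rel i).length,
      (Set.range fun i => letter (rel i) (τ' i)) = (Set.range fun i => letter (rel i) (τ i)) →
      cost ξ rel τ' = cost ξ rel τ → ∀ i, τ' i = τ i ∨ τ' i = τ₁ i)
    (hhol : ∀ (k : ℕ) (s : ℕ → ι), 0 < k → s k = s 0 →
      (∀ m < k, letter (rel (s (m + 1))) (τ₁ (s (m + 1))) = letter (rel (s m)) (τ (s m)) ∧
        τ₁ (s (m + 1)) ≠ τ (s (m + 1))) → hol rel τ τ₁ s k ≠ 1) :
    Aspherical rel :=
  aspherical_of_cheapest rel ξ hξ τ τ₁ hinj hmin huniq hhol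

end Pool.Agent.Results.MP_6de9fc_gt.CheapestTransversal
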